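import Mathlib
import Pool.Agent.R159.AndreMain

/-!
# Tangent conics never give arcs in Andre planes of order `q^3`, `q` even, unless `{T,N} = {E,F}`

Coordinates are those of the problem file: `E = (1,0)`, `F = (0,1)`, `D_δ = {(1,θ) : N(θ) = δ}`
with `N(θ) = θ^(q^2+q+1)`, and the affine lines of the Andre plane are the cosets `v + [P]` for
`P` on the line at infinity outside `D_δ` and the cosets `v + X_{m,u}` with `N(u) = δ`.

The proof finds three affine points of the conic on one line `v + X_{m,u}`.  One may take the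
affine point of the conic on the line joining the origin to `T` as the origin; the other affine
points are `τ N + τ^2 T`, and those lying on components `X_{2,u}` are parametrised by `θ` in the
norm class `D_δ`, with `u = θ w^(1-q^2)` for a rational function `w` of `θ`.  If no two of them
shared a component, `θ ↦ u` would be injective on `D_δ` minus at most two points and the power
sums `∑ u^k` would be those of the norm class (minus a point).  Computing the power sums for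
two exponents `k` gives a contradiction.
-/

namespace Pool.Agent.Results.MP_bbeacd_co.TangentConics

open Pool.Agent.R159.NormSums Pool.Agent.R159.AndreCases

variable {K : Type} [Field K]

/-- the quadratic form of the conic, with coefficients `a b c f g h` -/
def form (a b c f g h : K) (X Y Z : K) : K :=
  a * X ^ 2 + b * Y ^ 2 + c * Z ^ 2 + f * Y * Z + g * X * Z + h * X * Y

/-- nonsingularity of a conic: no point of the plane is a common zero of the form and its three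
partial derivatives (in characteristic two the partial derivatives are `h Y + g Z`, `h X + f Z`,
`g X + f Y`) -/
def NonDegenerate (a b c f g h : K) : Prop :=
  ∀ X Y Z : K, (X, Y, Z) ≠ (0, 0, 0) →
    ¬ (form a b c f g h X Y Z = 0 ∧ 2 * a * X + h * Y + g * Z = 0 ∧
      h * X + 2 * b * Y + f * Z = 0 ∧ g * X + f * Y + 2 * c * Z = 0)

/-- the lines of the affine Andre plane of order `q^3` defined by `D_δ` and `m` -/
def IsLine (q m : ℕ) (δ : K) (L : Set (K × K)) : Prop :=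
  (∃ v P : K × K, P ≠ 0 ∧ (∀ θ : K, θ ^ (q ^ 2 + q + 1) = δ → P.2 ≠ P.1 * θ) ∧
    L = {w | ∃ s : K, w = (v.1 + s * P.1, v.2 + s * P.2)}) ∨
  (∃ (v : K × K) (u : K), u ^ (q ^ 2 + q + 1) = δ ∧
    L = {w | ∃ s : K, w = (v.1 + s, v.2 + s ^ (q ^ m) * u)})

/-- a set of affine points of which no three lie on a line of the Andre plane -/
def IsArc (q m : ℕ) (δ : K) (S : Set (K × K)) : Prop :=
  ∀ L : Set (K × K), IsLine q m δ L → ∀ x ∈ S ∩ L, ∀ y ∈ S ∩ L, ∀ z ∈ S ∩ L,
    x = y ∨ x = z ∨ y = z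

lemma nondeg_value [CharP K 2] {a b c f g h : K} (hnd : NonDegenerate a b c f g h)
    (hh : h = 0) (hT : ∃ t₁ t₂ : K, (t₁, t₂) ≠ (0, 0) ∧ a * t₁ ^ 2 + b * t₂ ^ 2 = 0) :
    a * f ^ 2 + b * g ^ 2 ≠ 0 := by
  have two : (2 : K) = 0 := by exact_mod_cast CharP.cast_eq_zero K 2
  intro h0
  subst hh
  by_cases hfg : (f, g) = (0, 0)
  · have hf : f = 0 := congrArg Prod.fst hfg
    have hg : g = 0 := congrArg Prod.snd hfg
    obtain ⟨t₁, t₂, ht, hQ⟩ := hT
    apply hnd t₁ t₂ 0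
    · intro h'
      apply ht
      have h1 : t₁ = 0 := congrArg Prod.fst h'
      have h2 : t₂ = 0 := congrArg (fun x => x.2.1) h'
      rw [h1, h2]
    · unfold form
      rw [hf, hg]
      refine ⟨?_, ?_, ?_, ?_⟩
      · linear_combination hQ
      · linear_combination a * t₁ * two
      · linear_combination b * t₂ * two
      · ring
  · apply hnd f g 0
    · intro h'
      apply hfg
      have h1 : f = 0 := congrArg Prod.fst h'
      have h2 : g = 0 := congrArg (fun x => x.2.1) h'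
      rw [h1, h2]
    · unfold form
      refine ⟨?_, ?_, ?_, ?_⟩
      · linear_combination h0
      · linear_combination a * f * two
      · linear_combination b * g * two
      · linear_combination f * g * two

/-- Let `q = 2^e > 2`, let `K` be the field with `q^3` elements, `m ∈ {1,2}` and `δ` a nonzero
element of the subfield of order `q`.  Let `C` be a nondegenerate conic whose only point at
infinity is `T = (t₁ : t₂ : 0)`; its nucleus is `N = (f : g : h)`.  If `{T,N}` is not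
`{(1:0:0), (0:1:0)}` then the affine points of `C` do not form an arc of the Andre plane. -/
theorem result (e q : ℕ) (he : 2 ≤ e) (hqe : q = 2 ^ e) (K : Type) [Field K] [Fintype K]
    (hK : Fintype.card K = q ^ 3) (m : ℕ) (hm : m = 1 ∨ m = 2) (δ : K) (hδ0 : δ ≠ 0)
    (hδ : δ ^ q = δ) (a b c f g h : K) (hnd : NonDegenerate a b c f g h)
    (t₁ t₂ : K) (ht : (t₁, t₂) ≠ (0, 0))
    (hT : ∀ X Y : K, (X, Y) ≠ (0, 0) → (form a b c f g h X Y 0 = 0 ↔ X * t₂ = Y * t₁))
    (hne : ¬ ((t₂ = 0 ∧ f = 0 ∧ h = 0) ∨ (t₁ = 0 ∧ g = 0 ∧ h = 0))) :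
    ¬ IsArc q m δ {P : K × K | form a b c f g h P.1 P.2 1 = 0} := by
  classical
  -- the standing data
  obtain ⟨d, rfl⟩ : ∃ d, e = d + 1 := ⟨e - 1, by omega⟩
  have hch : CharP K 2 := by
    obtain ⟨p, hp⟩ := CharP.exists K
    obtain ⟨n, hpp, hn⟩ := FiniteField.card K p
    have h1 : 2 ∣ Fintype.card K := by
      rw [hK, hqe, ← pow_mul]
      exact dvd_pow_self 2 (by omega)
    rw [hn] at h1
    have h2 := Nat.prime_two.dvd_of_dvd_pow h1
    have h3 : 2 = p := (Nat.prime_dvd_prime_iff_eq Nat.prime_two hpp).mp h2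
    rw [h3]
    exact hp
  have C : Ctx K d (2 ^ d) q (q ^ 2 + q + 1) :=
    { ha := by omega
      hr := rfl
      hq := by rw [hqe, pow_succ]; ring
      hM := rfl
      hK := hK
      hch := hch }
  have two := C.two_eq
  have hform : ∀ X Y : K, form a b c f g h X Y 0 = a * X ^ 2 + b * Y ^ 2 + h * X * Y := by
    intro X Y
    unfold form
    ring
  have hTT : a * t₁ ^ 2 + b * t₂ ^ 2 + h * t₁ * t₂ = 0 := by
    rw [← hform]
    exact (hT t₁ t₂ ht).mpr (mul_comm _ _)
  -- the nucleus is at infinity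
  have hh : h = 0 := by
    by_contra hh
    -- a direction with nonzero polar value
    obtain ⟨X, Y, hXY⟩ : ∃ X Y : K, t₁ * Y + t₂ * X ≠ 0 := by
      by_cases h1 : t₁ = 0
      · refine ⟨1, 0, ?_⟩
        intro h2
        apply ht
        rw [h1, mul_zero, zero_add, mul_one] at h2
        rw [h1, h2]
      · refine ⟨0, 1, ?_⟩
        rwa [mul_one, mul_zero, add_zero]
    have hB : h * (t₁ * Y + t₂ * X) ≠ 0 := mul_ne_zero hh hXY
    obtain ⟨l, hl⟩ : ∃ l : K, a * X ^ 2 + b * Y ^ 2 + h * X * Y +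
        l * (h * (t₁ * Y + t₂ * X)) = 0 := by
      refine ⟨(a * X ^ 2 + b * Y ^ 2 + h * X * Y) / (h * (t₁ * Y + t₂ * X)), ?_⟩
      rw [div_mul_cancel₀ _ hB]
      exact C.add_self _
    have h3 : form a b c f g h (X + l * t₁) (Y + l * t₂) 0 = 0 := by
      rw [hform]
      linear_combination hl + l ^ 2 * hTT + (a * X * l * t₁ + b * Y * l * t₂) * two
    have h4 : (X + l * t₁) * t₂ ≠ (Y + l * t₂) * t₁ := by
      intro h5
      apply hXY
      linear_combination h5 + t₁ * Y * two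
    have h5 : (X + l * t₁, Y + l * t₂) ≠ (0, 0) := by
      intro h6
      apply h4
      have h7 : X + l * t₁ = 0 := congrArg Prod.fst h6
      have h8 : Y + l * t₂ = 0 := congrArg Prod.snd h6
      rw [h7, h8]
      ring
    exact h4 ((hT _ _ h5).mp h3)
  have hTT' : a * t₁ ^ 2 + b * t₂ ^ 2 = 0 := by
    rw [hh] at hTT
    linear_combination hTT
  have hC : a * f ^ 2 + b * g ^ 2 ≠ 0 := nondeg_value hnd hh ⟨t₁, t₂, ht, hTT'⟩
  have hB : g * t₁ + f * t₂ ≠ 0 := by
    intro h0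
    have h0' : g * t₁ = f * t₂ := C.eq_of_add _ _ h0
    apply ht
    have h1 : t₁ = 0 := by
      have : (a * f ^ 2 + b * g ^ 2) * t₁ ^ 2 = 0 := by
        linear_combination f ^ 2 * hTT' + b * (g * t₁ + f * t₂) * h0'
      rcases mul_eq_zero.mp this with h2 | h2
      · exact absurd h2 hC
      · exact (pow_eq_zero_iff (by norm_num)).mp h2
    have h2 : t₂ = 0 := by
      have : (a * f ^ 2 + b * g ^ 2) * t₂ ^ 2 = 0 := by
        linear_combination g ^ 2 * hTT' - a * (g * t₁ + f * t₂) * h0'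
      rcases mul_eq_zero.mp this with h2 | h2
      · exact absurd h2 hC
      · exact (pow_eq_zero_iff (by norm_num)).mp h2
    rw [h1, h2]
  obtain ⟨κ, hκ⟩ : ∃ κ : K, κ * (g * t₁ + f * t₂) = a * f ^ 2 + b * g ^ 2 :=
    ⟨(a * f ^ 2 + b * g ^ 2) / (g * t₁ + f * t₂), div_mul_cancel₀ _ hB⟩
  have hκ0 : κ ≠ 0 := by
    rintro rfl
    rw [zero_mul] at hκ
    exact hC hκ.symm
  obtain ⟨s, hs⟩ : ∃ s : K, s * (g * t₁ + f * t₂) = c :=
    ⟨c / (g * t₁ + f * t₂), div_mul_cancel₀ _ hB⟩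
  obtain ⟨u, hu, τ₁, τ₂, n1, n2, n12, e1, e2⟩ :=
    bad_both C m hm f g (κ * t₁) (κ * t₂) δ hδ0 hδ
      (by
        intro h0
        apply hC
        rw [← hκ]
        linear_combination h0)
      (by
        rintro ⟨h1, h2⟩
        exact hne (Or.inl ⟨(mul_eq_zero.mp h1).resolve_left hκ0, h2, hh⟩))
      (by
        rintro ⟨h1, h2⟩
        exact hne (Or.inr ⟨(mul_eq_zero.mp h1).resolve_left hκ0, h2, hh⟩))
  -- the points of the conic
  let P : K → K × K := fun τ =>
    (s * t₁ + (f * τ + κ * t₁ * τ ^ 2), s * t₂ + (g * τ + κ * t₂ * τ ^ 2))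
  have hP : ∀ τ : K, form a b c f g h (P τ).1 (P τ).2 1 = 0 := by
    intro τ
    change form a b c f g h (s * t₁ + (f * τ + κ * t₁ * τ ^ 2))
      (s * t₂ + (g * τ + κ * t₂ * τ ^ 2)) 1 = 0
    unfold form
    rw [hh]
    linear_combination (s + κ * τ ^ 2) ^ 2 * hTT' - τ ^ 2 * hκ + hs +
      (c + a * s * t₁ * f * τ + a * t₁ * f * τ ^ 3 * κ + s * τ * b * t₂ * g +
        t₁ * τ ^ 2 * κ * g + f * τ * g + f * τ ^ 2 * κ * t₂ + τ ^ 3 * κ * b * t₂ * g) * two
  have hinj : ∀ τ τ' : K, P τ = P τ' → τ = τ' := by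
    intro τ τ' h1
    have h2 : s * t₁ + (f * τ + κ * t₁ * τ ^ 2) = s * t₁ + (f * τ' + κ * t₁ * τ' ^ 2) :=
      congrArg Prod.fst h1
    have h3 : s * t₂ + (g * τ + κ * t₂ * τ ^ 2) = s * t₂ + (g * τ' + κ * t₂ * τ' ^ 2) :=
      congrArg Prod.snd h1
    have h4 : (g * t₁ + f * t₂) * (τ - τ') = 0 := by
      linear_combination t₂ * h2 - t₁ * h3 + g * t₁ * (τ - τ') * two
    rcases mul_eq_zero.mp h4 with h5 | h5
    · exact absurd h5 hB
    · exact sub_eq_zero.mp h5
  intro harc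
  let L : Set (K × K) := {w | ∃ x : K, w = ((s * t₁, s * t₂).1 + x,
    (s * t₁, s * t₂).2 + x ^ (q ^ m) * u)}
  have hL : IsLine q m δ L := Or.inr ⟨(s * t₁, s * t₂), u, hu, rfl⟩
  have m0 : P 0 ∈ L := by
    refine ⟨0, ?_⟩
    change (s * t₁ + (f * 0 + κ * t₁ * 0 ^ 2), s * t₂ + (g * 0 + κ * t₂ * 0 ^ 2)) =
      (s * t₁ + 0, s * t₂ + 0 ^ (q ^ m) * u)
    have hqm : q ^ m ≠ 0 := by
      have := C.q_ge
      positivity
    rw [zero_pow hqm]
    ext
    · simp
    · simp
  have m1 : P τ₁ ∈ L := by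
    refine ⟨f * τ₁ + κ * t₁ * τ₁ ^ 2, ?_⟩
    change (s * t₁ + (f * τ₁ + κ * t₁ * τ₁ ^ 2), s * t₂ + (g * τ₁ + κ * t₂ * τ₁ ^ 2)) =
      (s * t₁ + (f * τ₁ + κ * t₁ * τ₁ ^ 2),
        s * t₂ + (f * τ₁ + κ * t₁ * τ₁ ^ 2) ^ (q ^ m) * u)
    rw [e1]
  have m2 : P τ₂ ∈ L := by
    refine ⟨f * τ₂ + κ * t₁ * τ₂ ^ 2, ?_⟩
    change (s * t₁ + (f * τ₂ + κ * t₁ * τ₂ ^ 2), s * t₂ + (g * τ₂ + κ * t₂ * τ₂ ^ 2)) =
      (s * t₁ + (f * τ₂ + κ * t₁ * τ₂ ^ 2),
        s * t₂ + (f * τ₂ + κ * t₁ * τ₂ ^ 2) ^ (q ^ m) * u)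
    rw [e2]
  rcases harc L hL (P 0) ⟨hP 0, m0⟩ (P τ₁) ⟨hP τ₁, m1⟩ (P τ₂) ⟨hP τ₂, m2⟩ with h1 | h1 | h1
  · exact n1 (hinj _ _ h1).symm
  · exact n2 (hinj _ _ h1).symm
  · exact n12 (hinj _ _ h1)

end Pool.Agent.Results.MP_bbeacd_co.TangentConics
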